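import Pool.Agent.N874.TF.Stm
import Pool.Agent.N316.PQ.Fam
import Pool.Agent.N595.PQ.SML
import Pool.Agent.N134.PQ.LDZ
import Pool.Agent.N755.PQ.WK
import Pool.Agent.N891.PQ.Str
import Pool.Agent.N711.QM.Gfi
import Pool.Agent.N394.QM.Irr
import Pool.Agent.N262.PQ.Gf

/-!
# Many polynomials in the family with positive derivative

Project TC (helper874), part FAMR (helper648), after `Pool.Agent.N849.QM.fami` (helper849).
-/

set_option autoImplicit false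
set_option linter.all false

open Polynomial
open scoped Classical

namespace Pool.Agent.N648.TF

open Pool.Agent.N783.PQ
open Pool.Agent.N316.PQ
open Pool.Agent.N874.QM
open Pool.Agent.N874.TC
open Pool.Agent.N352.PJ (dd pol dis Dy D2)

/-- The number of the elements of an interval in a residue class. -/
lemma side (c : ℤ) (L m : ℕ) (v : ℤ) (hm : 0 < m) (hL : 2 * m ≤ L + 1) :
    L + 1 ≤ 2 * (((Finset.Icc c (c + L)).filter (fun x => (m : ℤ) ∣ x - v)).card * m) := by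
  have e : (Finset.Icc c (c + L)).filter (fun x => (m : ℤ) ∣ x - v) =
      (Finset.Ioc (c - 1) (c + L)).filter (fun x => x ≡ v [ZMOD m]) := by
    ext x
    simp only [Finset.mem_filter, Finset.mem_Icc, Finset.mem_Ioc]
    rw [Int.modEq_comm, Int.modEq_iff_dvd]
    constructor
    · rintro ⟨⟨h1, h2⟩, h3⟩; exact ⟨⟨by omega, h2⟩, h3⟩
    · rintro ⟨⟨h1, h2⟩, h3⟩; exact ⟨⟨by omega, h2⟩, h3⟩
  have hm' : (0 : ℤ) < m := by exact_mod_cast hm
  have h := Int.Ioc_filter_modEq_card (c - 1) (c + L) hm' v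
  rw [← e] at h
  set n := ((Finset.Icc c (c + L)).filter (fun x => (m : ℤ) ∣ x - v)).card with hn
  have hmq : (0 : ℚ) < m := by exact_mod_cast hm
  have h3 : (⌊((c + L : ℤ) - v : ℚ) / ((m : ℤ) : ℚ)⌋ : ℚ) -
      (⌊((c - 1 : ℤ) - v : ℚ) / ((m : ℤ) : ℚ)⌋ : ℚ) ≤ n := by
    have h4 := le_max_left (⌊((c + L : ℤ) - v : ℚ) / ((m : ℤ) : ℚ)⌋ -
      ⌊((c - 1 : ℤ) - v : ℚ) / ((m : ℤ) : ℚ)⌋) 0
    rw [← h] at h4
    exact_mod_cast h4
  have h4 := Int.lt_floor_add_one (((c + L : ℤ) - v : ℚ) / ((m : ℤ) : ℚ))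
  have h5 := Int.floor_le (((c - 1 : ℤ) - v : ℚ) / ((m : ℤ) : ℚ))
  have h6 : (((c + L : ℤ) - v : ℚ) / ((m : ℤ) : ℚ)) - (((c - 1 : ℤ) - v : ℚ) / ((m : ℤ) : ℚ))
      = (L + 1) / m := by
    push_cast
    rw [← sub_div]
    congr 1; ring
  have h7 : ((L : ℚ) + 1) / m < n + 1 := by linarith
  rw [div_lt_iff₀ hmq] at h7
  have h8 : L + 1 < (n + 1) * m := by exact_mod_cast h7
  nlinarith [h8, hL]

/-- The constant. -/
def E (g : ℕ) : ℕ := 4 * (2 * g + 1) ^ 2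

lemma E_pos (g : ℕ) : 0 < E g := by unfold E; positivity

/-- The side lengths of the sub-box. -/
def Lj (g B j : ℕ) : ℕ := B ^ (2 * g + 1 - j) / E g

/-- The corner of the sub-box. -/
def cj (g B j : ℕ) : ℤ := if j = 1 then (B : ℤ) ^ (2 * g) - Lj g B 1 else 0

lemma Lj_le (g B j : ℕ) : ((Lj g B j : ℕ) : ℤ) * (E g : ℤ) ≤ (B : ℤ) ^ (2 * g + 1 - j) := by
  have h := Nat.div_mul_le_self (B ^ (2 * g + 1 - j)) (E g)
  unfold Lj
  exact_mod_cast h

lemma Lj_le' (g B j : ℕ) : ((Lj g B j : ℕ) : ℤ) ≤ (B : ℤ) ^ (2 * g + 1 - j) := by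
  have h := Nat.div_le_self (B ^ (2 * g + 1 - j)) (E g)
  unfold Lj
  exact_mod_cast h

lemma Lj_ge (g B j : ℕ) : B ^ (2 * g + 1 - j) ≤ E g * (Lj g B j + 1) := by
  unfold Lj
  have h := Nat.lt_mul_div_succ (B ^ (2 * g + 1 - j)) (E_pos g)
  exact h.le

/-- The sub-box. -/
def Vx (g B m : ℕ) (A : Fin (2 * g) → ℤ) : Set (Fin (2 * g) → ℤ) :=
  {a | ∀ j : Fin (2 * g), (cj g B j ≤ a j ∧ a j ≤ cj g B j + Lj g B j) ∧ (m : ℤ) ∣ a j - A j}

lemma Vx_sub (g B m : ℕ) (A : Fin (2 * g) → ℤ) : Vx g B m A ⊆ Bx g B m A := by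
  intro a ha
  refine ⟨fun j => ?_, fun j => (ha j).2⟩
  obtain ⟨⟨h1, h2⟩, -⟩ := ha j
  have h3 := Lj_le' g B j
  have h0 : (0 : ℤ) ≤ (Lj g B j : ℕ) := by positivity
  unfold cj at h1 h2
  split_ifs at h1 h2 with hj
  · rw [hj] at h3 h2 h0 ⊢
    have e : 2 * g + 1 - 1 = 2 * g := by omega
    rw [e] at h3 ⊢
    rw [abs_le]
    constructor <;> linarith
  · rw [abs_le]
    constructor <;> linarith

/-- The size of the sub-box. -/
lemma Vx_card (g B m : ℕ) (A : Fin (2 * g) → ℤ) (hm : 0 < m) (hB : 2 * m * E g ≤ B) :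
    B ^ dd g ≤ (2 * E g) ^ (2 * g) * ((Vx g B m A).ncard * m ^ (2 * g)) := by
  classical
  have hE := E_pos g
  have hB1 : 1 ≤ B := by
    have : 0 < 2 * m * E g := by positivity
    omega
  set S : Fin (2 * g) → Finset ℤ := fun j =>
    (Finset.Icc (cj g B j) (cj g B j + (Lj g B j : ℕ))).filter
      (fun x => (m : ℤ) ∣ x - A j) with hS
  have e : Vx g B m A = ↑(Fintype.piFinset S) := by
    ext a
    simp only [Vx, Set.mem_setOf_eq, Finset.mem_coe, Fintype.mem_piFinset, hS, Finset.mem_filter,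
      Finset.mem_Icc]
  rw [e, Set.ncard_coe_finset, Fintype.card_piFinset]
  calc B ^ dd g = ∏ j : Fin (2 * g), B ^ (2 * g + 1 - (j : ℕ)) := by
        rw [Finset.prod_pow_eq_pow_sum, Pool.Agent.N595.PQ.sum_dd]
    _ ≤ ∏ j : Fin (2 * g), ((2 * E g) * ((S j).card * m)) := by
        refine Finset.prod_le_prod' fun j _ => ?_
        have h1 : 2 * m ≤ Lj g B j + 1 := by
          have h2 : 2 * m ≤ Lj g B j := by
            unfold Lj
            rw [Nat.le_div_iff_mul_le hE]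
            refine hB.trans (Nat.le_self_pow ?_ B)
            have := j.2
            omega
          omega
        have h2 := side (cj g B j) (Lj g B j) m (A j) hm h1
        calc B ^ (2 * g + 1 - (j : ℕ)) ≤ E g * (Lj g B j + 1) := Lj_ge g B j
          _ ≤ E g * (2 * ((S j).card * m)) := Nat.mul_le_mul_left _ h2
          _ = _ := by ring
    _ = (2 * E g) ^ (2 * g) * ((∏ j, (S j).card) * m ^ (2 * g)) := by
        rw [Finset.prod_mul_distrib, Finset.prod_const, Finset.prod_mul_distrib,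
          Finset.prod_const, Finset.card_univ, Fintype.card_fin]

/-- The derivative of the polynomials in the sub-box is positive. -/
lemma mono_pol {g B m : ℕ} (hg : 1 ≤ g) (hB : 1 ≤ B) {A a : Fin (2 * g) → ℤ}
    (ha : a ∈ Vx g B m A) : Mono (pol a) := by
  intro x
  have hE := E_pos g
  have hER : (0 : ℝ) < (E g : ℝ) := by exact_mod_cast hE
  have hBR : (1 : ℝ) ≤ (B : ℝ) := by exact_mod_cast hB
  have hB0 : (0 : ℝ) ≤ (B : ℝ) := by linarith
  have hev : (derivative (ov ℝ (pol a))).eval x = ((2 * g + 1 : ℕ) : ℝ) * x ^ (2 * g) +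
      ∑ j : Fin (2 * g), (a j : ℝ) * (((j : ℕ) : ℝ) * x ^ ((j : ℕ) - 1)) := by
    unfold pol ov
    rw [Polynomial.map_add, Polynomial.map_pow, map_X, Polynomial.map_sum, derivative_add,
      derivative_X_pow, derivative_sum, eval_add, eval_finset_sum]
    congr 1
    · simp
    · refine Finset.sum_congr rfl fun j _ => ?_
      rw [Polynomial.map_mul, map_C, Polynomial.map_pow, map_X, derivative_C_mul,
        derivative_X_pow]
      simp
  rw [hev]
  set T : ℝ := (B : ℝ) ^ (2 * g) + x ^ (2 * g) with hT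
  have hx0 : (0 : ℝ) ≤ x ^ (2 * g) := by
    rw [pow_mul]
    positivity
  have hBp : (0 : ℝ) < (B : ℝ) ^ (2 * g) := by positivity
  have hT0 : 0 ≤ T := by positivity
  have key : ∀ j : Fin (2 * g), (if (j : ℕ) = 1 then (B : ℝ) ^ (2 * g) / 2 else 0) -
      (2 * g : ℝ) / (E g : ℝ) * T ≤ (a j : ℝ) * (((j : ℕ) : ℝ) * x ^ ((j : ℕ) - 1)) := by
    intro j
    obtain ⟨⟨h1, h2⟩, -⟩ := ha j
    have hj2 := j.2
    have hneg : 0 ≤ (2 * g : ℝ) / (E g : ℝ) * T := by positivity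
    unfold cj at h1 h2
    split_ifs at h1 h2 ⊢ with hj
    · rw [hj]
      have h3 := Lj_le g B 1
      have e : 2 * g + 1 - 1 = 2 * g := by omega
      rw [e] at h3
      have h4 : ((Lj g B 1 : ℕ) : ℝ) * (E g : ℝ) ≤ (B : ℝ) ^ (2 * g) := by exact_mod_cast h3
      have h5 : (2 : ℝ) ≤ (E g : ℝ) := by
        have : 2 ≤ E g := by
          unfold E
          have : 1 ≤ (2 * g + 1) ^ 2 := Nat.one_le_pow _ _ (by omega)
          omega
        exact_mod_cast this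
      have h6 : (0 : ℝ) ≤ ((Lj g B 1 : ℕ) : ℝ) := by positivity
      have h7 : ((B : ℝ) ^ (2 * g) - ((Lj g B 1 : ℕ) : ℝ)) ≤ (a j : ℝ) := by exact_mod_cast h1
      have h8 : ((Lj g B 1 : ℕ) : ℝ) * 2 ≤ ((Lj g B 1 : ℕ) : ℝ) * (E g : ℝ) :=
        mul_le_mul_of_nonneg_left h5 h6
      simp only [Nat.cast_one, Nat.sub_self, pow_zero, mul_one]
      linarith
    · rcases Nat.eq_zero_or_pos (j : ℕ) with hz | hz
      · rw [hz]
        simp only [Nat.cast_zero, zero_mul, mul_zero]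
        linarith
      · have hj1 : 1 ≤ (j : ℕ) := hz
        have h3 : ((a j : ℤ) : ℝ) * (E g : ℝ) ≤ (B : ℝ) ^ (2 * g + 1 - (j : ℕ)) := by
          have h4 := Lj_le g B j
          have h5 : a j * (E g : ℤ) ≤ (B : ℤ) ^ (2 * g + 1 - (j : ℕ)) := by
            have hE0 : (0 : ℤ) ≤ (E g : ℤ) := by positivity
            have h6 : a j ≤ (Lj g B j : ℕ) := by linarith
            exact (mul_le_mul_of_nonneg_right h6 hE0).trans h4
          exact_mod_cast h5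
        have h4 : (0 : ℝ) ≤ (a j : ℝ) := by exact_mod_cast h1
        have h5 : (a j : ℝ) ≤ (B : ℝ) ^ (2 * g + 1 - (j : ℕ)) / (E g : ℝ) := by
          rw [le_div_iff₀ hER]
          exact h3
        have h6 : (B : ℝ) ^ (2 * g + 1 - (j : ℕ)) * |x| ^ ((j : ℕ) - 1) ≤ T := by
          have e1 : (2 * g + 1 - (j : ℕ)) + ((j : ℕ) - 1) = 2 * g := by omega
          have hxa : x ^ (2 * g) = |x| ^ (2 * g) := by
            rw [pow_mul, pow_mul, sq_abs]
          rw [hT, hxa]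
          have hx' := abs_nonneg x
          rcases le_total |x| (B : ℝ) with hc | hc
          · calc (B : ℝ) ^ (2 * g + 1 - (j : ℕ)) * |x| ^ ((j : ℕ) - 1)
                ≤ (B : ℝ) ^ (2 * g + 1 - (j : ℕ)) * (B : ℝ) ^ ((j : ℕ) - 1) := by gcongr
              _ = (B : ℝ) ^ (2 * g) := by rw [← pow_add, e1]
              _ ≤ _ := by
                have : 0 ≤ |x| ^ (2 * g) := by positivity
                linarith
          · calc (B : ℝ) ^ (2 * g + 1 - (j : ℕ)) * |x| ^ ((j : ℕ) - 1)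
                ≤ |x| ^ (2 * g + 1 - (j : ℕ)) * |x| ^ ((j : ℕ) - 1) := by gcongr
              _ = |x| ^ (2 * g) := by rw [← pow_add, e1]
              _ ≤ _ := by linarith
        have h7 : |(a j : ℝ) * (((j : ℕ) : ℝ) * x ^ ((j : ℕ) - 1))| ≤
            (2 * g : ℝ) / (E g : ℝ) * T := by
          rw [abs_mul, abs_mul, abs_pow, abs_of_nonneg h4, Nat.abs_cast]
          have h8 : ((j : ℕ) : ℝ) ≤ 2 * g := by exact_mod_cast hj2.le
          calc (a j : ℝ) * (((j : ℕ) : ℝ) * |x| ^ ((j : ℕ) - 1))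
              ≤ ((B : ℝ) ^ (2 * g + 1 - (j : ℕ)) / (E g : ℝ)) *
                ((2 * g : ℝ) * |x| ^ ((j : ℕ) - 1)) := by gcongr
            _ = (2 * g : ℝ) / (E g : ℝ) *
                ((B : ℝ) ^ (2 * g + 1 - (j : ℕ)) * |x| ^ ((j : ℕ) - 1)) := by ring
            _ ≤ _ := by gcongr
        have h8 := neg_le_of_abs_le h7
        linarith
  have hsum := Finset.sum_le_sum (s := Finset.univ) fun (j : Fin (2 * g)) _ => key j
  rw [Finset.sum_sub_distrib, Finset.sum_const, Finset.card_univ, Fintype.card_fin] at hsum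
  have hone : ∑ j : Fin (2 * g), (if (j : ℕ) = 1 then (B : ℝ) ^ (2 * g) / 2 else 0) =
      (B : ℝ) ^ (2 * g) / 2 := by
    rw [Finset.sum_eq_single (⟨1, by omega⟩ : Fin (2 * g))]
    · simp
    · intro b _ hb
      rw [if_neg]
      intro hb1
      exact hb (Fin.ext hb1)
    · intro h
      exact absurd (Finset.mem_univ _) h
  rw [hone, nsmul_eq_mul] at hsum
  have hq : ((2 * g : ℕ) : ℝ) * ((2 * g : ℝ) / (E g : ℝ) * T) ≤ T / 4 := by
    have h1 : (E g : ℝ) = 4 * (2 * g + 1) ^ 2 := by unfold E; push_cast; ring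
    have h2 : ((2 * g : ℕ) : ℝ) * ((2 * g : ℝ) / (E g : ℝ)) ≤ 1 / 4 := by
      rw [h1]
      push_cast
      rw [← mul_div_assoc, div_le_div_iff₀ (by positivity) (by norm_num)]
      nlinarith [Nat.cast_nonneg (α := ℝ) g]
    calc ((2 * g : ℕ) : ℝ) * ((2 * g : ℝ) / (E g : ℝ) * T)
        = (((2 * g : ℕ) : ℝ) * ((2 * g : ℝ) / (E g : ℝ))) * T := by ring
      _ ≤ 1 / 4 * T := mul_le_mul_of_nonneg_right h2 hT0
      _ = T / 4 := by ring
  have hlead : x ^ (2 * g) ≤ ((2 * g + 1 : ℕ) : ℝ) * x ^ (2 * g) := by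
    have h1 : (1 : ℝ) ≤ ((2 * g + 1 : ℕ) : ℝ) := by
      exact_mod_cast (by omega : 1 ≤ 2 * g + 1)
    nlinarith
  rw [hT] at hq
  linarith

theorem famr0 (h1 : S_BX) (h2 : S_SMLK) (h3 : S_WK) (h4 : S_STR) (h5 : S_GFI) (h6 : S_DSC) :
    S_FAMR := by
  intro g M' hg
  obtain ⟨M, hM⟩ := h2 g hg (4 * (6 * E g) ^ (2 * g))
  obtain ⟨W, f₁, hf₁, hW', hI⟩ := h5 g (max M' (max M (2 * g + 1))) hg
  have hE := E_pos g
  have hW : ∀ p : ℕ, p.Prime → p ≤ max M (2 * g + 1) → p ∣ W := fun p hp hle =>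
    hW' p hp (hle.trans (le_max_right _ _))
  have hW0 : 0 < W := hf₁.pos
  refine ⟨W, f₁, hf₁, fun p hp hle => hW' p hp (hle.trans (le_max_left _ _)), hI,
    1 / (2 * ((2 * E g : ℕ) : ℝ) ^ (2 * g) * (W : ℝ) ^ (2 * g)), by positivity, fun S h hS => ?_⟩
  obtain ⟨Q, hQ⟩ : ∃ Q : ℕ, Q = ∏ q ∈ S, q := ⟨_, rfl⟩
  have hQ0 : 0 < Q := by
    rw [hQ]
    exact Finset.prod_pos fun q hq => (hS q hq).1.pos
  have hWQ : 0 < W * Q := Nat.mul_pos hW0 hQ0
  -- residues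
  have hcrt : ∀ j : Fin (2 * g), ∃ x : ℤ, (W : ℤ) ∣ x - f₁.coeff j ∧
      ∀ q ∈ S, (q : ℤ) ∣ x - (X * h q).coeff j := fun j =>
    crt W S (fun q hq => ⟨(hS q hq).1, fun hd =>
      absurd (Nat.le_of_dvd hW0 hd) (by have := (hS q hq).2.1; omega)⟩) _ _
  choose A hA1 hA2 using hcrt
  obtain ⟨B₁, hB₁⟩ := h4 g hg (1 / (4 * (((2 * E g : ℕ) : ℝ) ^ (2 * g) *
    ((W * Q : ℕ) : ℝ) ^ (2 * g)))) (by positivity)
  refine ⟨max B₁ (2 * (W * Q) * E g), fun B hB => ?_⟩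
  have hBB1 : B₁ ≤ B := (le_max_left _ _).trans hB
  have hBE : 2 * (W * Q) * E g ≤ B := (le_max_right _ _).trans hB
  have hBWQ : W * Q ≤ B := by
    refine le_trans ?_ hBE
    nlinarith
  have hB1 : 1 ≤ B := hWQ.trans_le hBWQ
  obtain ⟨hfin, -, hcard3⟩ := h1 g B (W * Q) A hWQ hBWQ
  have hcard := Vx_card g B (W * Q) A hWQ hBE
  obtain ⟨hfin0, -, -⟩ := h1 g B 1 (fun _ => 0) one_pos hB1
  have hBz : (Bz g B).Finite := by
    refine hfin0.subset ?_
    intro a ha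
    exact ⟨ha, fun j => by simp⟩
  have hsml := hM B (W * Q) A hWQ hBWQ
  have hstr := hB₁ B hBB1
  have hVU := Vx_sub g B (W * Q) A
  set V := Vx g B (W * Q) A with hV
  set U := Bx g B (W * Q) A with hU
  set U1 := {a ∈ U | ∃ P : ℕ, P.Prime ∧ M < P ∧ P ^ 2 < B ∧ ¬ P ∣ (W * Q) ∧
    (P : ℤ) ^ 2 ∣ dis a} with hU1
  set U2 := {a ∈ Bz g B | ∃ P : ℕ, P.Prime ∧ B ≤ P ^ 2 ∧ (P : ℤ) ∣ dis a ∧ (P : ℤ) ∣ D2 a}
    with hU2
  have hU1f : U1.Finite := hfin.subset (Set.sep_subset _ _)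
  have hU2f : U2.Finite := hBz.subset (Set.sep_subset _ _)
  -- the good ones are in the family
  have key : pol '' (V \ (U1 ∪ U2)) ⊆ {f : ℤ[X] | Fam g B W f₁ S h f ∧ Mono f} := by
    rintro _ ⟨a, ⟨haV, ha⟩, rfl⟩
    have haU : a ∈ U := hVU haV
    refine ⟨?_, mono_pol hg hB1 haV⟩
    have haB : ∀ j, |a j| ≤ (B : ℤ) ^ (2 * g + 1 - (j : ℕ)) := haU.1
    have haR : ∀ j, ((W * Q : ℕ) : ℤ) ∣ a j - A j := haU.2
    have hone : Cg W (pol a) f₁ := by
      apply cg_pol a hf₁.mon hf₁.deg hf₁.tr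
      intro j
      have e1 : (W : ℤ) ∣ a j - A j := dvd_trans (by push_cast; exact dvd_mul_right _ _) (haR j)
      have e2 : a j - f₁.coeff j = (a j - A j) + (A j - f₁.coeff j) := by ring
      rw [e2]
      exact dvd_add e1 (hA1 j)
    have hcon : ∀ q ∈ S, Cg q (pol a) (X * h q) := by
      intro q hq
      obtain ⟨hq1, hq2, hq3, hq4, hq5, hq6, hq7, hq8⟩ := hS q hq
      have hd : (X * h q).natDegree = 2 * g + 1 := by
        rw [Polynomial.monic_X.natDegree_mul hq5, Polynomial.natDegree_X, hq6, add_comm]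
      apply cg_pol a (Polynomial.monic_X.mul hq5) hd
      · have e1 : 2 * g = (2 * g - 1) + 1 := by omega
        rw [e1, Polynomial.coeff_X_mul, hq7]
      · intro j
        have e0 : (q : ℤ) ∣ ((W * Q : ℕ) : ℤ) := by
          have e3 : q ∣ Q := by
            rw [hQ]
            exact Finset.dvd_prod_of_mem (fun q => q) hq
          exact_mod_cast Dvd.dvd.mul_left e3 W
        have e1 : (q : ℤ) ∣ a j - A j := dvd_trans e0 (haR j)
        have e2 : a j - (X * h q).coeff j = (a j - A j) + (A j - (X * h q).coeff j) := by ring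
        rw [e2]
        exact dvd_add e1 (hA2 j q hq)
    refine ⟨ht_pol haB, hone, hcon, fun P hP hPd => ?_⟩
    have hPd' : (P : ℤ) ^ 2 ∣ dis a := hPd
    have hPd1 : (P : ℤ) ∣ dsc g (pol a) := dvd_trans (dvd_pow_self _ two_ne_zero) hPd
    have hPW : ¬ P ∣ W := by
      intro hd
      refine h6 g P (pol a) f₁ hg hP (pol_monic a) (pol_natDegree a) ?_ (hf₁.sep P hP hd) hPd1
      intro j
      exact dvd_trans (by exact_mod_cast hd) (hone j)
    have hPS : P ∉ S := by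
      intro hd
      obtain ⟨hq1, hq2, hq3, hq4, hq5, hq6, hq7, hq8⟩ := hS P hd
      exact h6 g P (pol a) (X * h P) hg hP (pol_monic a) (pol_natDegree a) (hcon P hd)
        (sep_X_mul hg hP hq5 hq6 hq8) hPd1
    have hPQ : ¬ P ∣ W * Q := by
      rw [Nat.Prime.dvd_mul hP]
      rintro (hd | hd)
      · exact hPW hd
      · rw [hQ] at hd
        obtain ⟨q, hq, hpq⟩ := (Prime.dvd_finset_prod_iff hP.prime _).1 hd
        have e1 := (Nat.prime_dvd_prime_iff_eq hP (hS q hq).1).1 hpq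
        rw [e1] at hPS
        exact hPS hq
    have hPM : max M (2 * g + 1) < P := by
      by_contra hc
      exact hPW (hW P hP (not_lt.1 hc))
    have hPM1 : M < P := (le_max_left _ _).trans_lt hPM
    have hPg : 2 * g + 1 < P := (le_max_right _ _).trans_lt hPM
    have hBP : B ≤ P ^ 2 := by
      by_contra hc
      exact ha (Or.inl ⟨haU, P, hP, hPM1, not_le.1 hc, hPQ, hPd'⟩)
    refine ⟨hBP, h3 g P hg hP hPg a hPd' fun hD => ?_⟩
    exact ha (Or.inr ⟨haB, P, hP, hBP, hPd1, hD⟩)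
  -- finiteness of the family
  have hFf : {f : ℤ[X] | Fam g B W f₁ S h f ∧ Mono f}.Finite := by
    refine (hBz.image pol).subset ?_
    rintro f ⟨hf, -⟩
    refine ⟨fun j => f.coeff j, ?_, (eq_pol hf.ht).symm⟩
    intro j
    exact hf.ht.ht j (by have := j.2; omega)
  -- counting
  have c1 : (V \ (U1 ∪ U2)).ncard ≤ {f : ℤ[X] | Fam g B W f₁ S h f ∧ Mono f}.ncard := by
    rw [← Set.ncard_image_of_injective _ pol_inj]
    exact Set.ncard_le_ncard key hFf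
  have c2 : V.ncard ≤ (V \ (U1 ∪ U2)).ncard + (U1.ncard + U2.ncard) := by
    have e1 := Set.ncard_le_ncard_diff_add_ncard V (U1 ∪ U2) (hU1f.union hU2f)
    have e2 := Set.ncard_union_le U1 U2
    omega
  have hmp : 0 < (W * Q) ^ (2 * g) := by positivity
  have c3' : U.ncard ≤ (6 * E g) ^ (2 * g) * V.ncard := by
    have e1 : U.ncard * (W * Q) ^ (2 * g) ≤
        ((6 * E g) ^ (2 * g) * V.ncard) * (W * Q) ^ (2 * g) := by
      calc U.ncard * (W * Q) ^ (2 * g) ≤ 3 ^ (2 * g) * B ^ dd g := hcard3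
        _ ≤ 3 ^ (2 * g) * ((2 * E g) ^ (2 * g) * (V.ncard * (W * Q) ^ (2 * g))) :=
          Nat.mul_le_mul_left _ hcard
        _ = (3 ^ (2 * g) * (2 * E g) ^ (2 * g)) * V.ncard * (W * Q) ^ (2 * g) := by ring
        _ = _ := by
          have e2 : (3 : ℕ) ^ (2 * g) * (2 * E g) ^ (2 * g) = (6 * E g) ^ (2 * g) := by
            rw [← mul_pow]
            congr 1
            ring
          rw [e2]
    exact Nat.le_of_mul_le_mul_right e1 hmp
  have c3n : 4 * U1.ncard ≤ V.ncard := by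
    have e0 : 0 < (6 * E g) ^ (2 * g) := by positivity
    refine Nat.le_of_mul_le_mul_left ?_ e0
    calc (6 * E g) ^ (2 * g) * (4 * U1.ncard) = 4 * (6 * E g) ^ (2 * g) * U1.ncard := by ring
      _ ≤ U.ncard := hsml
      _ ≤ _ := c3'
  have c3 : (4 : ℝ) * U1.ncard ≤ V.ncard := by exact_mod_cast c3n
  have c4 : (B : ℝ) ^ dd g ≤ ((2 * E g : ℕ) : ℝ) ^ (2 * g) *
      (V.ncard * ((W * Q : ℕ) : ℝ) ^ (2 * g)) := by exact_mod_cast hcard
  have hP0 : (0 : ℝ) < ((W * Q : ℕ) : ℝ) ^ (2 * g) := by positivity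
  have hP1 : (0 : ℝ) < ((2 * E g : ℕ) : ℝ) ^ (2 * g) := by positivity
  have c5 : (4 : ℝ) * U2.ncard ≤ V.ncard := by
    have e1 : (U2.ncard : ℝ) ≤ 1 / (4 * (((2 * E g : ℕ) : ℝ) ^ (2 * g) *
        ((W * Q : ℕ) : ℝ) ^ (2 * g))) * (((2 * E g : ℕ) : ℝ) ^ (2 * g) *
        (V.ncard * ((W * Q : ℕ) : ℝ) ^ (2 * g))) :=
      hstr.trans (mul_le_mul_of_nonneg_left c4 (by positivity))
    have e2 : 1 / (4 * (((2 * E g : ℕ) : ℝ) ^ (2 * g) * ((W * Q : ℕ) : ℝ) ^ (2 * g))) *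
        (((2 * E g : ℕ) : ℝ) ^ (2 * g) * (V.ncard * ((W * Q : ℕ) : ℝ) ^ (2 * g))) =
        V.ncard / 4 := by
      generalize ((2 * E g : ℕ) : ℝ) ^ (2 * g) = s at hP1 ⊢
      generalize ((W * Q : ℕ) : ℝ) ^ (2 * g) = t at hP0 ⊢
      field_simp
    rw [e2] at e1
    linarith
  have c6 : (V.ncard : ℝ) ≤ 2 * ({f : ℤ[X] | Fam g B W f₁ S h f ∧ Mono f}.ncard : ℝ) := by
    have e1 : (V.ncard : ℝ) ≤ ((V \ (U1 ∪ U2)).ncard : ℝ) + (U1.ncard + U2.ncard) := by
      exact_mod_cast c2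
    have e2 : ((V \ (U1 ∪ U2)).ncard : ℝ) ≤
        ({f : ℤ[X] | Fam g B W f₁ S h f ∧ Mono f}.ncard : ℝ) := by
      exact_mod_cast c1
    linarith
  have c7 : ((∏ q ∈ S, q ^ (2 * g) : ℕ) : ℝ) = (Q : ℝ) ^ (2 * g) := by
    rw [hQ, Finset.prod_pow]
    push_cast
    rfl
  rw [c7]
  set N : ℝ := ({f : ℤ[X] | Fam g B W f₁ S h f ∧ Mono f}.ncard : ℝ) with hN
  have hW1 : (0 : ℝ) < (W : ℝ) ^ (2 * g) := by positivity
  have c8 : (B : ℝ) ^ dd g ≤ ((2 * E g : ℕ) : ℝ) ^ (2 * g) *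
      ((2 * N) * ((W * Q : ℕ) : ℝ) ^ (2 * g)) :=
    c4.trans (mul_le_mul_of_nonneg_left (mul_le_mul_of_nonneg_right c6 hP0.le) hP1.le)
  rw [one_div_mul_eq_div, div_le_iff₀ (by positivity)]
  refine c8.trans (le_of_eq ?_)
  rw [Nat.cast_mul W Q, mul_pow (W : ℝ) (Q : ℝ)]
  ring

/-- **TC/FAMR** -/
theorem famr (h : S_SMLK) : S_FAMR :=
  famr0 Pool.Agent.N134.PQ.bx h Pool.Agent.N755.PQ.WK.wk Pool.Agent.N891.PQ.str
    (Pool.Agent.N711.QM.gfi Pool.Agent.N394.QM.irr) Pool.Agent.N262.PQ.dscp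

end Pool.Agent.N648.TF
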